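import Pool.Agent.Run7.h204.TyC

/-!
# MP_e9426e_al: small rational solutions of unit and addition equations

For every complex tuple `x` of length `n` there is a rational tuple `y` with all coordinates in
`[-2 ^ (n - 1), 2 ^ (n - 1)]` that satisfies every equation `z i = 1` or `z i + z j = z k` that `x`
satisfies.

Proof.  Let `x i0 = 1` (otherwise take `y = 0`).  After homogenising (`z i = z i0` in place of `z i = 1`) all
equations have rows that are sums of two network rows (at most one entry `1`, at most one entry `-1`).
Let `W` be a maximal independent set of `m` such rows that are orthogonal to `x`, and let `J` be `m` columns, not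
containing `i0`, with `det W_J ≠ 0`.  Put `y i0 = 1`, let the other coordinates outside `J` be `0` and solve for
the coordinates in `J` by Cramer's rule: the numerators are determinants of order `m ≤ n - 1` whose rows are
sums of two network rows, so at most `2 ^ m`, because determinants with network rows are `0, 1, -1`.
-/

set_option autoImplicit false

namespace Pool.Agent.Results.MP_e9426e_al.RationalPowerBound

/-- **Q1, affirmative.** -/
theorem result (n : ℕ) (_hn : 1 ≤ n) (x : Fin n → ℂ) : ∃ y : Fin n → ℚ,
    (∀ i, -2 ^ (n - 1) ≤ y i ∧ y i ≤ 2 ^ (n - 1)) ∧ (∀ i, x i = 1 → y i = 1) ∧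
      ∀ i j k, x i + x j = x k → y i + y j = y k := by
  obtain ⟨y, h1, h2, h3⟩ := Run7.h204.Tysz.rat_sol x
  exact ⟨y, fun i => abs_le.mp (h1 i), h2, h3⟩

end Pool.Agent.Results.MP_e9426e_al.RationalPowerBound
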